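import Pool.Agent.Lib_MP_d91c53_ps.Avg

/-!
# A bilinear game with two-element sets

`V` is the space of `0/1` vectors mod 2. Each of two players is given a vector and names a vector
of weight two; the correlation `E (-1)^(<e y, x> + <e' x, y>)` is at most `17/24`.
-/

set_option autoImplicit false
set_option linter.unusedSectionVars false

namespace Pool.Agent.TP

open Finset Pool.Agent.PS

/-- The character of `ZMod 2`. -/
noncomputable def ch (a : ZMod 2) : ℝ := if a = 0 then 1 else -1

lemma zmod2_cases (a : ZMod 2) : a = 0 ∨ a = 1 := by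
  revert a; decide

lemma ch_zero : ch 0 = 1 := by simp [ch]

lemma ch_one : ch 1 = -1 := by
  have : (1 : ZMod 2) ≠ 0 := by decide
  simp [ch]

lemma ch_add (a b : ZMod 2) : ch (a + b) = ch a * ch b := by
  have h11 : (1 : ZMod 2) + 1 = 0 := by decide
  rcases zmod2_cases a with rfl | rfl <;> rcases zmod2_cases b with rfl | rfl <;>
    simp [ch_zero, ch_one, h11]

lemma ch_mul_self (a : ZMod 2) : ch a * ch a = 1 := by
  rcases zmod2_cases a with rfl | rfl <;> simp [ch_zero, ch_one]

lemma ch_le_one (a : ZMod 2) : ch a ≤ 1 := by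
  rcases zmod2_cases a with rfl | rfl <;> simp [ch_zero, ch_one]

section Vec

variable {ι : Type*} [Fintype ι] [DecidableEq ι]

/-- The bilinear form. -/
def dt (u v : ι → ZMod 2) : ZMod 2 := ∑ i, u i * v i

/-- The number of ones. -/
def wt (u : ι → ZMod 2) : ℕ := ∑ i, (u i).val

lemma dt_add_left (u u' v : ι → ZMod 2) : dt (u + u') v = dt u v + dt u' v := by
  simp only [dt, Pi.add_apply, add_mul, Finset.sum_add_distrib]

lemma dt_add_right (u v v' : ι → ZMod 2) : dt u (v + v') = dt u v + dt u v' := by
  simp only [dt, Pi.add_apply, mul_add, Finset.sum_add_distrib]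

lemma dt_zero_left (v : ι → ZMod 2) : dt 0 v = 0 := by
  simp [dt]

lemma dt_zero_right (v : ι → ZMod 2) : dt v 0 = 0 := by
  simp [dt]

lemma add_self_vec (u : ι → ZMod 2) : u + u = 0 := by
  funext i
  simp only [Pi.add_apply, Pi.zero_apply]
  exact CharTwo.add_self_eq_zero _

lemma add_add_cancel_vec (u v : ι → ZMod 2) : u + v + v = u := by
  rw [add_assoc, add_self_vec, add_zero]

lemma wt_zero : wt (0 : ι → ZMod 2) = 0 := by simp [wt]

lemma wt_add (u v : ι → ZMod 2) : wt (u + v) + 2 * wt (u * v) = wt u + wt v := by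
  simp only [wt, Finset.mul_sum, ← Finset.sum_add_distrib, Pi.add_apply, Pi.mul_apply]
  refine Finset.sum_congr rfl fun i _ => ?_
  generalize u i = a
  generalize v i = b
  revert a b
  decide

lemma dt_eq (u v : ι → ZMod 2) : dt u v = ((wt (u * v) : ℕ) : ZMod 2) := by
  simp only [dt, wt, Nat.cast_sum, Pi.mul_apply, ZMod.natCast_val, ZMod.cast_id', id]

lemma dt_one (u v : ι → ZMod 2) (hu : wt u = 2) (hv : wt v = 2) (h : wt (u + v) = 2) :
    dt u v = 1 := by
  have h1 := wt_add u v
  have h2 : wt (u * v) = 1 := by omega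
  rw [dt_eq, h2]
  rfl

/-- A nontrivial character has mean zero. -/
lemma av_ch (v : ι → ZMod 2) (hv : v ≠ 0) : av (fun y : ι → ZMod 2 => ch (dt v y)) = 0 := by
  obtain ⟨i, hi⟩ : ∃ i, v i ≠ 0 := by
    by_contra hc
    push Not at hc
    exact hv (funext hc)
  have hi1 : v i = 1 := (zmod2_cases (v i)).resolve_left hi
  set e : ι → ZMod 2 := Pi.single i 1 with he
  have hinv : Function.Involutive (fun y : ι → ZMod 2 => y + e) := by
    intro y
    exact add_add_cancel_vec y e
  have h1 := av_comp_invol (fun y : ι → ZMod 2 => y + e) hinv (fun y => ch (dt v y))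
  have h2 : dt v e = 1 := by
    unfold dt
    rw [Finset.sum_eq_single i]
    · rw [he, Pi.single_eq_same, hi1, mul_one]
    · intro j _ hj
      rw [he, Pi.single_eq_of_ne hj, mul_zero]
    · intro h
      exact absurd (Finset.mem_univ i) h
  have h3 : av (fun y : ι → ZMod 2 => ch (dt v (y + e))) =
      - av (fun y : ι → ZMod 2 => ch (dt v y)) := by
    have : (fun y : ι → ZMod 2 => ch (dt v (y + e))) = fun y => (-1) * ch (dt v y) := by
      funext y
      rw [dt_add_right, ch_add, h2, ch_one]
      ring
    rw [this, av_mul_left]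
    ring
  rw [h3] at h1
  linarith

lemma av_translate (z : ι → ZMod 2) (F : (ι → ZMod 2) → ℝ) :
    av (fun x => F (x + z)) = av F :=
  av_comp_invol (fun x => x + z) (fun x => add_add_cancel_vec x z) F

/-- The matrix of the game. -/
noncomputable def K (e e' : (ι → ZMod 2) → (ι → ZMod 2)) (x y : ι → ZMod 2) : ℝ :=
  ch (dt (e y) x) * ch (dt (e' x) y)

lemma K_comm (e e' : (ι → ZMod 2) → (ι → ZMod 2)) (x y : ι → ZMod 2) :
    K e e' x y = K e' e y x := by
  unfold K
  ring

lemma K_mul_self (e e' : (ι → ZMod 2) → (ι → ZMod 2)) (x y : ι → ZMod 2) :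
    K e e' x y * K e e' x y = 1 := by
  unfold K
  calc _ = (ch (dt (e y) x) * ch (dt (e y) x)) * (ch (dt (e' x) y) * ch (dt (e' x) y)) := by ring
    _ = 1 := by rw [ch_mul_self, ch_mul_self, one_mul]

lemma K_le_one (e e' : (ι → ZMod 2) → (ι → ZMod 2)) (x y : ι → ZMod 2) : K e e' x y ≤ 1 := by
  have h := K_mul_self e e' x y
  nlinarith [sq_nonneg (K e e' x y - 1)]

/-- The labels of `x`, `z`, `x + z` sum to zero. -/
noncomputable def T (e' : (ι → ZMod 2) → (ι → ZMod 2)) (x z : ι → ZMod 2) : ℝ :=
  if e' x + e' z + e' (x + z) = 0 then 1 else 0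

lemma T_comm (e' : (ι → ZMod 2) → (ι → ZMod 2)) (x z : ι → ZMod 2) : T e' x z = T e' z x := by
  unfold T
  rw [add_comm (e' x) (e' z), add_comm x z]

lemma T_third (e' : (ι → ZMod 2) → (ι → ZMod 2)) (x z : ι → ZMod 2) :
    T e' z (x + z) = T e' z x := by
  unfold T
  have h1 : z + (x + z) = x := by
    rw [add_comm z, add_add_cancel_vec]
  have h2 : e' z + e' (x + z) + e' (z + (x + z)) = e' z + e' x + e' (z + x) := by
    rw [h1, add_comm z x]
    ring
  rw [h2]

/-- The mean of a row. -/
noncomputable def sm (e e' : (ι → ZMod 2) → (ι → ZMod 2)) (x : ι → ZMod 2) : ℝ :=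
  av (fun y => K e e' x y)

/-- The proportion of the lines through `z` with label sum zero. -/
noncomputable def pm (e' : (ι → ZMod 2) → (ι → ZMod 2)) (z : ι → ZMod 2) : ℝ :=
  av (fun x => T e' x z)

lemma pair_bound (e e' : (ι → ZMod 2) → (ι → ZMod 2)) (x z : ι → ZMod 2) :
    av (fun y => K e e' x y * K e e' (x + z) y) ≤
      T e' x z * sm e e' z + (1 - T e' x z) * (1 - sm e e' z) := by
  have key : ∀ y, K e e' x y * K e e' (x + z) y * K e e' z y =
      ch (dt (e' x + e' z + e' (x + z)) y) := by
    intro y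
    unfold K
    have h1 : dt (e y) x + dt (e y) (x + z) + dt (e y) z = 0 := by
      rw [← dt_add_right, ← dt_add_right]
      have : x + (x + z) + z = 0 := by
        rw [← add_assoc, add_self_vec, zero_add, add_self_vec]
      rw [this, dt_zero_right]
    calc _ = (ch (dt (e y) x) * ch (dt (e y) (x + z)) * ch (dt (e y) z)) *
          (ch (dt (e' x) y) * ch (dt (e' z) y) * ch (dt (e' (x + z)) y)) := by ring
      _ = ch (dt (e y) x + dt (e y) (x + z) + dt (e y) z) *
          ch (dt (e' x) y + dt (e' z) y + dt (e' (x + z)) y) := by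
          rw [ch_add, ch_add, ch_add, ch_add]
      _ = _ := by
          rw [h1, ch_zero, one_mul, dt_add_left, dt_add_left]
  by_cases hT : e' x + e' z + e' (x + z) = 0
  · have e1 : T e' x z = 1 := if_pos hT
    rw [e1]
    have e2 : (fun y => K e e' x y * K e e' (x + z) y) = fun y => K e e' z y := by
      funext y
      have h1 := key y
      rw [hT, dt_zero_left, ch_zero] at h1
      have h2 := K_mul_self e e' z y
      calc K e e' x y * K e e' (x + z) y
          = K e e' x y * K e e' (x + z) y * (K e e' z y * K e e' z y) := by rw [h2, mul_one]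
        _ = (K e e' x y * K e e' (x + z) y * K e e' z y) * K e e' z y := by ring
        _ = K e e' z y := by rw [h1, one_mul]
    rw [e2]
    unfold sm
    linarith
  · have e1 : T e' x z = 0 := if_neg hT
    rw [e1]
    have h0 : av (fun y => K e e' x y * K e e' (x + z) y * K e e' z y) = 0 := by
      simp only [key]
      exact av_ch _ hT
    have h1 : av (fun y => K e e' x y * K e e' (x + z) y) + sm e e' z ≤ 1 := by
      have h2 : av (fun y => K e e' x y * K e e' (x + z) y + K e e' z y) ≤
          av (fun y => 1 + K e e' x y * K e e' (x + z) y * K e e' z y) := by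
        refine av_le fun y => ?_
        have a1 := K_le_one e e' z y
        have a2 : K e e' x y * K e e' (x + z) y ≤ 1 := by
          have b1 := K_mul_self e e' x y
          have b2 := K_mul_self e e' (x + z) y
          nlinarith [sq_nonneg (K e e' x y - K e e' (x + z) y)]
        nlinarith [mul_nonneg (sub_nonneg.2 a1) (sub_nonneg.2 a2)]
      rw [av_add, av_add, av_const, h0] at h2
      unfold sm
      linarith
    linarith

/-- The second moment of the column means. -/
lemma second_moment (e e' : (ι → ZMod 2) → (ι → ZMod 2)) :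
    av (fun y => (av (fun x => K e e' x y)) ^ 2) ≤
      1 - av (sm e e') - av (pm e') + 2 * av (fun z => pm e' z * sm e e' z) := by
  have e1 : ∀ y, (av (fun x => K e e' x y)) ^ 2 =
      av (fun z => av (fun x => K e e' x y * K e e' (x + z) y)) := by
    intro y
    rw [pow_two, av_comm]
    rw [← av_mul_right]
    congr 1
    funext x
    rw [av_mul_left]
    congr 1
    have := av_translate x (fun z => K e e' z y)
    rw [← this]
    congr 1
    funext z
    rw [add_comm]
  simp only [e1]
  rw [av_comm]
  have e2 : ∀ z, av (fun y => av (fun x => K e e' x y * K e e' (x + z) y)) ≤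
      pm e' z * sm e e' z + (1 - pm e' z) * (1 - sm e e' z) := by
    intro z
    rw [av_comm]
    calc av (fun x => av (fun y => K e e' x y * K e e' (x + z) y))
        ≤ av (fun x => T e' x z * sm e e' z + (1 - T e' x z) * (1 - sm e e' z)) :=
          av_le fun x => pair_bound e e' x z
      _ = _ := by
          rw [av_add, av_mul_right, av_mul_right, av_sub, av_const]
          rfl
  calc _ ≤ av (fun z => pm e' z * sm e e' z + (1 - pm e' z) * (1 - sm e e' z)) := av_le e2
    _ = av (fun z => (1 - (sm e e' z + pm e' z)) + 2 * (pm e' z * sm e e' z)) := by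
        congr 1
        funext z
        ring
    _ = _ := by
        rw [av_add, av_sub, av_const, av_add, av_mul_left]
        ring

/-- Propositional core of the count of lines. -/
lemma count_core (a1 a2 b1 b2 c1 c2 : Prop) [Decidable a1] [Decidable a2] [Decidable b1]
    [Decidable b2] [Decidable c1] [Decidable c2]
    (r1 : a1 → b1 → c2) (r1' : a1 → c2 → b1) (r1'' : b1 → c2 → a1)
    (r2 : a1 → b2 → c1) (r2' : a1 → c1 → b2) (r2'' : b2 → c1 → a1)
    (r3 : a2 → b1 → c1) (r3' : a2 → c1 → b1) (r3'' : b1 → c1 → a2)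
    (r4 : a2 → b2 → c2) (r4' : a2 → c2 → b2) (r4'' : b2 → c2 → a2)
    (h : ¬ (a1 ∧ b1 ∧ c1)) :
    (if a1 then (1 : ℝ) else 0) + (if a2 then 1 else 0) + (if b1 then 1 else 0) +
      (if b2 then 1 else 0) + (if c1 then 1 else 0) + (if c2 then 1 else 0) ≤ 3 := by
  by_cases h1 : a1 <;> by_cases h2 : a2 <;> by_cases h3 : b1 <;> by_cases h4 : b2 <;>
    by_cases h5 : c1 <;> by_cases h6 : c2 <;> simp_all <;> norm_num

end Vec

end Pool.Agent.TP
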