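import Pool.Agent.Lib_MP_d91c53_tp.Pair
import Pool.Agent.Lib_MP_d91c53_ps.Core

/-!
# Any number of players
-/

set_option autoImplicit false
set_option linter.unusedSectionVars false

namespace Pool.Agent.TP

open Finset Pool.Agent.PS

section Multi

variable {κ : Type*} [Fintype κ] [DecidableEq κ] {ι : Type*} [Fintype ι] [DecidableEq ι]

lemma D_empty (z : κ → Bool) : D ∅ z = 1 := by
  unfold D
  exact Finset.prod_eq_one fun b _ => by simp [dw]

lemma M_empty (b : κ) (z : κ → Bool) : M ∅ b z = sg (z b) := by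
  simp [M]

/-- The named hat of one player has mean zero. -/
lemma mean_one (s : ι → (ι → κ → Bool) → κ)
    (hs : ∀ i x y, (∀ j, j ≠ i → x j = y j) → s i x = s i y) (i : ι) :
    av (fun x : ι → κ → Bool => sg (x i (s i x))) = 0 := by
  have h := mean_zero i ∅ (s i) (fun x z => hs i _ _ fun j hj => Function.update_of_ne hj _ _)
  simpa only [D_empty, M_empty, one_mul] using h

/-- Two named hats. -/
lemma corr_two (s : ι → (ι → κ → Bool) → κ)
    (hs : ∀ i x y, (∀ j, j ≠ i → x j = y j) → s i x = s i y) (i j : ι) (hij : i ≠ j) :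
    av (fun x : ι → κ → Bool => sg (x i (s i x)) * sg (x j (s j x))) ≤ 41 / 96 := by
  have h := two_way_pair (41 / 96) pair_corr i j hij ∅ ∅ (s i) (s j)
    (fun x z => hs i _ _ fun l hl => Function.update_of_ne hl _ _)
    (fun x z => hs j _ _ fun l hl => Function.update_of_ne hl _ _)
  simpa only [D_empty, M_empty, one_mul] using h

/-- Two players of the team. -/
lemma win_two (s : ι → (ι → κ → Bool) → κ)
    (hs : ∀ i x y, (∀ j, j ≠ i → x j = y j) → s i x = s i y) (i j : ι) (hij : i ≠ j)
    (W : (ι → κ → Bool) → ℝ) (hW : ∀ x, W x ≤ 1) (hW0 : ∀ x, W x ≤ 0 ∨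
      (x i (s i x) = true ∧ x j (s j x) = true)) :
    av W ≤ 137 / 384 := by
  have h1 : ∀ x, W x ≤ (1 / 4) * ((1 + (sg (x i (s i x)) + sg (x j (s j x)))) +
      sg (x i (s i x)) * sg (x j (s j x))) := by
    intro x
    rcases hW0 x with h | ⟨h, h'⟩
    · refine h.trans ?_
      cases x i (s i x) <;> cases x j (s j x) <;> norm_num [sg]
    · refine (hW x).trans ?_
      rw [h, h']
      norm_num [sg]
  have h2 := av_le h1
  rw [av_mul_left, av_add, av_add, av_const, av_add, mean_one s hs, mean_one s hs] at h2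
  have h3 := corr_two s hs i j hij
  linarith

/-- All players. -/
lemma win_all (n : ℕ) (hn : Fintype.card ι = n) (hn0 : 1 ≤ n) (s : ι → (ι → κ → Bool) → κ)
    (hs : ∀ i x y, (∀ j, j ≠ i → x j = y j) → s i x = s i y)
    (W : (ι → κ → Bool) → ℝ) (hW1 : ∀ x, W x ≤ 1)
    (hW0 : ∀ x, W x ≤ 0 ∨ (∀ i, x i (s i x) = true)) :
    av W ≤ (41 * n + 55) / (137 * n + 55) := by
  have hnR : (1 : ℝ) ≤ n := by exact_mod_cast hn0
  set S : (ι → κ → Bool) → ℝ := fun x => ∑ i, sg (x i (s i x)) with hS
  have hS0 : av S = 0 := by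
    rw [hS, av_sum]
    exact Finset.sum_eq_zero fun i _ => mean_one s hs i
  have hS2 : av (fun x => S x ^ 2) ≤ n + n * (n - 1) * (41 / 96) := by
    have e1 : (fun x => S x ^ 2) =
        fun x => ∑ i, ∑ j, sg (x i (s i x)) * sg (x j (s j x)) := by
      funext x
      rw [hS, pow_two, Finset.sum_mul_sum]
    rw [e1, av_sum]
    have e2 : ∀ i : ι, av (fun x : ι → κ → Bool => ∑ j, sg (x i (s i x)) * sg (x j (s j x))) ≤
        1 + (n - 1) * (41 / 96) := by
      intro i
      rw [av_sum, ← Finset.add_sum_erase _ _ (Finset.mem_univ i)]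
      have a1 : av (fun x : ι → κ → Bool => sg (x i (s i x)) * sg (x i (s i x))) = 1 := by
        have : (fun x : ι → κ → Bool => sg (x i (s i x)) * sg (x i (s i x))) =
            fun _ => (1 : ℝ) := by
          funext x
          rw [← pow_two, sg_sq]
        rw [this, av_const]
      have a2 : ∑ j ∈ Finset.univ.erase i,
          av (fun x : ι → κ → Bool => sg (x i (s i x)) * sg (x j (s j x))) ≤
          ∑ _j ∈ (Finset.univ : Finset ι).erase i, (41 / 96 : ℝ) :=
        Finset.sum_le_sum fun j hj => corr_two s hs i j (Finset.ne_of_mem_erase hj).symm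
      rw [Finset.sum_const, Finset.card_erase_of_mem (Finset.mem_univ i), Finset.card_univ, hn,
        nsmul_eq_mul, Nat.cast_sub hn0, Nat.cast_one] at a2
      rw [a1]
      linarith
    calc _ ≤ ∑ _i : ι, (1 + ((n : ℝ) - 1) * (41 / 96)) := Finset.sum_le_sum fun i _ => e2 i
      _ = _ := by
          rw [Finset.sum_const, Finset.card_univ, hn, nsmul_eq_mul]
          ring
  set A : ℝ := (41 * n + 55) / 96 with hA
  -- the threshold of Cantelli's inequality
  have hA0 : 0 < A := by rw [hA]; positivity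
  have h1 : ∀ x, W x * (n + A) ^ 2 ≤ (S x ^ 2 + 2 * A * S x) + A ^ 2 := by
    intro x
    have hsq : 0 ≤ (S x + A) ^ 2 := sq_nonneg _
    rcases hW0 x with h | h
    · have : W x * (n + A) ^ 2 ≤ 0 := mul_nonpos_of_nonpos_of_nonneg h (sq_nonneg _)
      nlinarith
    · have hSx : S x = n := by
        rw [hS]
        have : ∀ i, sg (x i (s i x)) = 1 := by
          intro i
          rw [h i]
          rfl
        simp only [this, Finset.sum_const, Finset.card_univ, hn, nsmul_eq_mul, mul_one]
      rw [hSx]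
      have := mul_le_mul_of_nonneg_right (hW1 x) (sq_nonneg (n + A))
      nlinarith
  have h2 := av_le h1
  rw [av_mul_right, av_add, av_add, av_mul_left, av_const, hS0] at h2
  have h3 : av W * (n + A) ^ 2 ≤ n * A + A ^ 2 := by
    have : (n : ℝ) + n * (n - 1) * (41 / 96) = n * A := by
      rw [hA]
      ring
    linarith
  have h4 : 0 < (n : ℝ) + A := by linarith
  have h5 : av W ≤ A / (n + A) := by
    rw [le_div_iff₀ h4]
    have : (av W * (n + A)) * (n + A) ≤ A * (n + A) := by
      calc _ = av W * (n + A) ^ 2 := by ring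
        _ ≤ n * A + A ^ 2 := h3
        _ = _ := by ring
    exact le_of_mul_le_mul_right this h4
  refine h5.trans (le_of_eq ?_)
  rw [hA]
  have h6 : (137 : ℝ) * n + 55 ≠ 0 := by positivity
  field_simp
  ring

end Multi

/-- The bound in the setting of the hat game. -/
theorem main_bound (n k : ℕ) (hn : 2 ≤ n) (s : Fin n → (Fin n → Fin k → Bool) → Fin k)
    (hs : ∀ i : Fin n, ∀ x y : Fin n → Fin k → Bool,
      (∀ j : Fin n, j ≠ i → x j = y j) → s i x = s i y) :
    ((Finset.univ.filter
        (fun x : Fin n → Fin k → Bool => ∀ i : Fin n, x i (s i x) = true)).card : ℝ)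
      ≤ min (137 / 384 : ℝ) ((41 * (n : ℝ) + 55) / (137 * (n : ℝ) + 55)) * (2 : ℝ) ^ (n * k) := by
  classical
  set W : (Fin n → Fin k → Bool) → ℝ :=
    fun x => if ∀ i : Fin n, x i (s i x) = true then 1 else 0 with hW
  have hW1 : ∀ x, W x ≤ 1 := by
    intro x
    simp only [hW]
    split_ifs <;> norm_num
  have hW0 : ∀ x, W x ≤ 0 ∨ (∀ i, x i (s i x) = true) := by
    intro x
    by_cases h : ∀ i : Fin n, x i (s i x) = true
    · exact Or.inr h
    · left
      simp only [hW, if_neg h, le_refl]
  have hcard : ((Finset.univ.filter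
      (fun x : Fin n → Fin k → Bool => ∀ i : Fin n, x i (s i x) = true)).card : ℝ) =
      av W * (2 : ℝ) ^ (n * k) := by
    have h1 : (Fintype.card (Fin n → Fin k → Bool) : ℝ) = (2 : ℝ) ^ (n * k) := by
      rw [Fintype.card_fun, Fintype.card_fun, Fintype.card_bool, Fintype.card_fin,
        Fintype.card_fin]
      push_cast
      rw [← pow_mul, mul_comm k n]
    rw [av, h1, div_mul_cancel₀ _ (by positivity)]
    simp only [hW, Finset.sum_boole]
  rw [hcard]
  refine mul_le_mul_of_nonneg_right (le_min ?_ ?_) (by positivity)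
  · have i0 : (⟨0, by omega⟩ : Fin n) ≠ ⟨1, by omega⟩ := by
      intro h
      have := congrArg Fin.val h
      simp at this
    exact win_two s hs _ _ i0 W hW1 fun x => (hW0 x).imp id fun h => ⟨h _, h _⟩
  · exact win_all n (Fintype.card_fin n) (by omega) s hs W hW1 hW0

end Pool.Agent.TP
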