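import Pool.Agent.Lib_MP_d91c53_tp.Edge

/-!
# Lines with label sum zero, and the bound `17/24`
-/

set_option autoImplicit false
set_option linter.unusedSectionVars false

namespace Pool.Agent.TP

open Finset Pool.Agent.PS

section Vec

variable {ι : Type*} [Fintype ι] [DecidableEq ι]

lemma eq_of_add_zero {u v w : ι → ZMod 2} (h : u + v + w = 0) : u + v = w := by
  have := congrArg (· + w) h
  simpa only [add_add_cancel_vec, zero_add] using this

lemma add_zero_of_eq {u v w : ι → ZMod 2} (h : u + v = w) : u + v + w = 0 := by
  rw [h, add_self_vec]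

/-- At most four of the seven lines of a Fano plane are triangles. -/
lemma six_lines (A B C D E F G : ι → ZMod 2) (hABC : A + B + C = 0)
    (hA : wt A = 2) (hB : wt B = 2) (hC : wt C = 2) (hD : wt D = 2) (hE : wt E = 2)
    (hF : wt F = 2) (hG : wt G = 2) :
    (if D + A + E = 0 then (1 : ℝ) else 0) + (if F + A + G = 0 then 1 else 0) +
      (if D + B + F = 0 then 1 else 0) + (if E + B + G = 0 then 1 else 0) +
      (if D + C + G = 0 then 1 else 0) + (if E + C + F = 0 then 1 else 0) ≤ 3 := by
  -- the sum of the three relations vanishes identically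
  have key : ∀ u v w : ι → ZMod 2, u + v + w = 0 → u = 0 → v = 0 → w = 0 := by
    intro u v w h hu hv
    rw [hu, hv, zero_add, zero_add] at h
    exact h
  have s2 : ∀ u : ι → ZMod 2, u + u = 0 := add_self_vec
  have e1 : (D + A + E) + (D + B + F) + (E + C + F) = 0 := by
    calc _ = (A + B + C) + (D + D) + (E + E) + (F + F) := by ring
      _ = 0 := by rw [hABC]; simp only [s2]
  have e2 : (D + A + E) + (E + B + G) + (D + C + G) = 0 := by
    calc _ = (A + B + C) + (D + D) + (E + E) + (G + G) := by ring
      _ = 0 := by rw [hABC]; simp only [s2]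
  have e3 : (F + A + G) + (D + B + F) + (D + C + G) = 0 := by
    calc _ = (A + B + C) + (D + D) + (F + F) + (G + G) := by ring
      _ = 0 := by rw [hABC]; simp only [s2]
  have e4 : (F + A + G) + (E + B + G) + (E + C + F) = 0 := by
    calc _ = (A + B + C) + (E + E) + (F + F) + (G + G) := by ring
      _ = 0 := by rw [hABC]; simp only [s2]
  have perm1 : ∀ {u v w : ι → ZMod 2}, u + v + w = 0 → u + w + v = 0 := by
    intro u v w h
    rw [← h]
    ring
  have perm2 : ∀ {u v w : ι → ZMod 2}, u + v + w = 0 → v + w + u = 0 := by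
    intro u v w h
    rw [← h]
    ring
  refine count_core _ _ _ _ _ _ (key _ _ _ e1) (key _ _ _ (perm1 e1)) (key _ _ _ (perm2 e1))
    (key _ _ _ e2) (key _ _ _ (perm1 e2)) (key _ _ _ (perm2 e2))
    (key _ _ _ e3) (key _ _ _ (perm1 e3)) (key _ _ _ (perm2 e3))
    (key _ _ _ e4) (key _ _ _ (perm1 e4)) (key _ _ _ (perm2 e4)) ?_
  rintro ⟨h1, h2, h3⟩
  have d1 : dt D A = 1 := dt_one D A hD hA (by rw [eq_of_add_zero h1]; exact hE)
  have d2 : dt D B = 1 := dt_one D B hD hB (by rw [eq_of_add_zero h2]; exact hF)
  have d3 : dt D C = 1 := dt_one D C hD hC (by rw [eq_of_add_zero h3]; exact hG)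
  have d4 : dt D (A + B + C) = 0 := by rw [hABC, dt_zero_right]
  rw [dt_add_right, dt_add_right, d1, d2, d3] at d4
  revert d4
  decide

/-- The pointwise count of lines. -/
lemma T_six (e' : (ι → ZMod 2) → (ι → ZMod 2)) (he : ∀ x, wt (e' x) = 2)
    (x z w : ι → ZMod 2) :
    T e' z w * (T e' x z + T e' (x + w) z + T e' x w + T e' (x + z) w +
      T e' x (z + w) + T e' (x + z) (z + w)) ≤ 3 * T e' z w := by
  by_cases h : e' z + e' w + e' (z + w) = 0
  · have e1 : T e' z w = 1 := if_pos h
    rw [e1, one_mul, mul_one]
    have h6 := six_lines (e' z) (e' w) (e' (z + w)) (e' x) (e' (x + z)) (e' (x + w))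
      (e' (x + z + w)) h (he _) (he _) (he _) (he _) (he _) (he _) (he _)
    have t1 : T e' x z = if e' x + e' z + e' (x + z) = 0 then (1 : ℝ) else 0 := rfl
    have t2 : T e' (x + w) z = if e' (x + w) + e' z + e' (x + z + w) = 0 then (1 : ℝ) else 0 := by
      unfold T
      rw [show x + w + z = x + z + w by ring]
    have t3 : T e' x w = if e' x + e' w + e' (x + w) = 0 then (1 : ℝ) else 0 := rfl
    have t4 : T e' (x + z) w =
        if e' (x + z) + e' w + e' (x + z + w) = 0 then (1 : ℝ) else 0 := rfl
    have t5 : T e' x (z + w) =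
        if e' x + e' (z + w) + e' (x + z + w) = 0 then (1 : ℝ) else 0 := by
      unfold T
      rw [show x + (z + w) = x + z + w by ring]
    have t6 : T e' (x + z) (z + w) =
        if e' (x + z) + e' (z + w) + e' (x + w) = 0 then (1 : ℝ) else 0 := by
      unfold T
      have : x + z + (z + w) = x + w := by
        calc x + z + (z + w) = x + w + z + z := by ring
          _ = x + w := add_add_cancel_vec _ _
      rw [this]
    rw [t1, t2, t3, t4, t5, t6]
    exact h6
  · have e1 : T e' z w = 0 := if_neg h
    rw [e1, zero_mul, mul_zero]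

/-- The second moment of `pm`. -/
lemma pm_second (e' : (ι → ZMod 2) → (ι → ZMod 2)) (he : ∀ x, wt (e' x) = 2) :
    av (fun z => pm e' z ^ 2) ≤ (1 / 2) * av (pm e') := by
  -- average over `x`
  have h1 : ∀ z w, T e' z w * (2 * (pm e' z + pm e' w + pm e' (z + w))) ≤ 3 * T e' z w := by
    intro z w
    have h := av_le (fun x => T_six e' he x z w)
    rw [av_const, av_mul_left, av_add, av_add, av_add, av_add, av_add] at h
    have a1 : av (fun x => T e' (x + w) z) = pm e' z := av_translate w (fun x => T e' x z)
    have a2 : av (fun x => T e' (x + z) w) = pm e' w := av_translate z (fun x => T e' x w)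
    have a3 : av (fun x => T e' (x + z) (z + w)) = pm e' (z + w) :=
      av_translate z (fun x => T e' x (z + w))
    have b1 : av (fun x => T e' x z) = pm e' z := rfl
    have b2 : av (fun x => T e' x w) = pm e' w := rfl
    have b3 : av (fun x => T e' x (z + w)) = pm e' (z + w) := rfl
    rw [a1, a2, a3, b1, b2, b3] at h
    calc _ = T e' z w * (pm e' z + pm e' z + pm e' w + pm e' w + pm e' (z + w) +
          pm e' (z + w)) := by ring
      _ ≤ _ := h
  -- average over `z`, `w`
  have c1 : av (fun z => av (fun w => T e' z w * pm e' z)) = av (fun z => pm e' z ^ 2) := by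
    congr 1
    funext z
    rw [av_mul_right]
    have : av (fun w => T e' z w) = pm e' z := by
      unfold pm
      congr 1
      funext w
      exact T_comm e' z w
    rw [this, pow_two]
  have c2 : av (fun z => av (fun w => T e' z w * pm e' w)) = av (fun z => pm e' z ^ 2) := by
    rw [av_comm]
    congr 1
    funext w
    rw [av_mul_right, pow_two]
    rfl
  have c3 : av (fun z => av (fun w => T e' z w * pm e' (z + w))) =
      av (fun z => pm e' z ^ 2) := by
    rw [← c2]
    congr 1
    funext z
    have h := av_translate z (fun w => T e' z w * pm e' w)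
    rw [← h]
    congr 1
    funext w
    rw [T_third, T_comm e' z w, T_comm e' w z, add_comm w z]
  have c4 : av (fun z => av (fun w => T e' z w)) = av (pm e') := by
    rw [av_comm]
    rfl
  have h2 := av_le (fun z => av_le (fun w => h1 z w))
  have e1 : av (fun z => av (fun w => T e' z w * (2 * (pm e' z + pm e' w + pm e' (z + w))))) =
      6 * av (fun z => pm e' z ^ 2) := by
    have : (fun z => av (fun w => T e' z w * (2 * (pm e' z + pm e' w + pm e' (z + w))))) =
        fun z => 2 * (av (fun w => T e' z w * pm e' z) + av (fun w => T e' z w * pm e' w) +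
          av (fun w => T e' z w * pm e' (z + w))) := by
      funext z
      rw [← av_add, ← av_add, ← av_mul_left]
      congr 1
      funext w
      ring
    rw [this, av_mul_left, av_add, av_add, c1, c2, c3]
    ring
  have e2 : av (fun z => av (fun w => 3 * T e' z w)) = 3 * av (pm e') := by
    have : (fun z => av (fun w => 3 * T e' z w)) = fun z => 3 * av (fun w => T e' z w) := by
      funext z
      rw [av_mul_left]
    rw [this, av_mul_left, c4]
  rw [e1, e2] at h2
  linarith

/-- Jensen. -/
lemma av_sq_le {X : Type*} [Fintype X] [Nonempty X] (F : X → ℝ) :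
    (av F) ^ 2 ≤ av (fun x => F x ^ 2) := by
  have h : 0 ≤ av (fun x => (F x - av F) ^ 2) := av_nonneg fun x => sq_nonneg _
  have e : (fun x => (F x - av F) ^ 2) =
      fun x => (F x ^ 2 + (av F) ^ 2) - 2 * av F * F x := by
    funext x
    ring
  rw [e, av_sub, av_add, av_const, av_mul_left] at h
  nlinarith

/-- The correlation in the game with two-element sets. -/
theorem edge_game (e e' : (ι → ZMod 2) → (ι → ZMod 2)) (he : ∀ x, wt (e x) = 2)
    (he' : ∀ x, wt (e' x) = 2) :
    av (fun x => av (fun y => ch (dt (e y) x) * ch (dt (e' x) y))) ≤ 17 / 24 := by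
  set s := sm e e' with hs
  set t := sm e' e with ht
  set p := pm e' with hp
  set q := pm e with hq
  have hcs : av (fun x => av (fun y => ch (dt (e y) x) * ch (dt (e' x) y))) = av s := rfl
  have hct : av s = av t := by
    have : av (fun x => av (fun y => K e e' x y)) = av (fun y => av (fun x => K e' e y x)) := by
      rw [av_comm]
      simp only [K_comm e e']
    exact this
  have hcol : ∀ y, av (fun x => K e e' x y) = t y := by
    intro y
    simp only [K_comm e e']
    rfl
  have hrow : ∀ x, av (fun y => K e' e y x) = s x := by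
    intro x
    simp only [K_comm e' e]
    rfl
  have h1 : av (fun y => t y ^ 2) ≤ 1 - av s - av p + 2 * av (fun z => p z * s z) := by
    have := second_moment e e'
    simp only [hcol] at this
    exact this
  have h2 : av (fun x => s x ^ 2) ≤ 1 - av t - av q + 2 * av (fun z => q z * t z) := by
    have := second_moment e' e
    simp only [hrow] at this
    exact this
  have h3 : av (fun z => p z ^ 2) ≤ (1 / 2) * av p := pm_second e' he'
  have h4 : av (fun z => q z ^ 2) ≤ (1 / 2) * av q := pm_second e he
  have h5 : (av s - av p) ^ 2 ≤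
      av (fun x => s x ^ 2) - 2 * av (fun z => p z * s z) + av (fun z => p z ^ 2) := by
    have h := av_sq_le (fun z => s z - p z)
    rw [av_sub] at h
    have e1 : (fun z => (s z - p z) ^ 2) = fun z => (s z ^ 2 - 2 * (p z * s z)) + p z ^ 2 := by
      funext z
      ring
    rw [e1, av_add, av_sub, av_mul_left] at h
    exact h
  have h6 : (av t - av q) ^ 2 ≤
      av (fun x => t x ^ 2) - 2 * av (fun z => q z * t z) + av (fun z => q z ^ 2) := by
    have h := av_sq_le (fun z => t z - q z)
    rw [av_sub] at h
    have e1 : (fun z => (t z - q z) ^ 2) = fun z => (t z ^ 2 - 2 * (q z * t z)) + q z ^ 2 := by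
      funext z
      ring
    rw [e1, av_add, av_sub, av_mul_left] at h
    exact h
  rw [hcs]
  have h7 := sq_nonneg (av s - av p - 1 / 4)
  have h8 := sq_nonneg (av t - av q - 1 / 4)
  nlinarith

end Vec

end Pool.Agent.TP
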