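import Pool.Agent.Lib_MP_d91c53_tp.Lines

/-!
# Two players: the correlation of the named hats is at most `41/96`
-/

set_option autoImplicit false
set_option linter.unusedSectionVars false

namespace Pool.Agent.TP

open Finset Pool.Agent.PS

section Vec

variable {κ : Type*} [Fintype κ] [DecidableEq κ]

lemma wt_single (i : κ) : wt (Pi.single i 1 : κ → ZMod 2) = 1 := by
  unfold wt
  rw [Finset.sum_eq_single i]
  · rw [Pi.single_eq_same]
    rfl
  · intro j _ hj
    rw [Pi.single_eq_of_ne hj]
    rfl
  · intro h
    exact absurd (Finset.mem_univ i) h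

lemma dt_single (i : κ) (v : κ → ZMod 2) : dt (Pi.single i 1) v = v i := by
  unfold dt
  rw [Finset.sum_eq_single i]
  · rw [Pi.single_eq_same, one_mul]
  · intro j _ hj
    rw [Pi.single_eq_of_ne hj, zero_mul]
  · intro h
    exact absurd (Finset.mem_univ i) h

/-- The vector of a pair. -/
def pr (i j : κ) : κ → ZMod 2 := Pi.single i 1 + Pi.single j 1

lemma wt_pr (i j : κ) (h : i ≠ j) : wt (pr i j) = 2 := by
  have h1 := wt_add (Pi.single i 1 : κ → ZMod 2) (Pi.single j 1)
  have h2 : (Pi.single i 1 : κ → ZMod 2) * Pi.single j 1 = 0 := by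
    funext l
    simp only [Pi.mul_apply, Pi.zero_apply]
    by_cases hl : l = i
    · subst hl
      rw [Pi.single_eq_of_ne h, mul_zero]
    · rw [Pi.single_eq_of_ne hl, zero_mul]
  rw [h2, wt_zero, wt_single, wt_single] at h1
  unfold pr
  omega

lemma ch_pr (i j : κ) (v : κ → ZMod 2) : ch (dt (pr i j) v) = ch (v i) * ch (v j) := by
  unfold pr
  rw [dt_add_left, dt_single, dt_single, ch_add]

lemma ne_zero_of_wt {v : κ → ZMod 2} (h : wt v = 2) : v ≠ 0 := by
  rintro rfl
  rw [wt_zero] at h
  exact absurd h (by norm_num)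

lemma ch_pm (a : ZMod 2) : ch a = 1 ∨ ch a = -1 := by
  rcases zmod2_cases a with rfl | rfl
  · exact Or.inl ch_zero
  · exact Or.inr ch_one

lemma ch_flip (a : ZMod 2) : ch (a + 1) = - ch a := by
  rw [ch_add, ch_one]
  ring

/-- The pair named at `v` and at the opposite vector. -/
def lab (i₀ j₀ : κ) (F : (κ → ZMod 2) → κ) (v : κ → ZMod 2) : κ → ZMod 2 :=
  if F v = F (v + 1) then pr i₀ j₀ else pr (F v) (F (v + 1))

lemma wt_lab (i₀ j₀ : κ) (h : i₀ ≠ j₀) (F : (κ → ZMod 2) → κ) (v : κ → ZMod 2) :
    wt (lab i₀ j₀ F v) = 2 := by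
  unfold lab
  split_ifs with h1
  · exact wt_pr _ _ h
  · exact wt_pr _ _ h1

lemma half_diff (i₀ j₀ : κ) (F : (κ → ZMod 2) → κ) (u v : κ → ZMod 2) :
    |(ch (u (F v)) - ch (u (F (v + 1)))) / 2| ≤ (1 - ch (dt (lab i₀ j₀ F v) u)) / 2 := by
  unfold lab
  split_ifs with h1
  · rw [← h1, sub_self, zero_div, abs_zero]
    have := ch_le_one (dt (pr i₀ j₀) u)
    linarith
  · rw [ch_pr]
    rcases ch_pm (u (F v)) with h2 | h2 <;> rcases ch_pm (u (F (v + 1))) with h3 | h3 <;>
      rw [h2, h3] <;> norm_num

/-- The correlation, in vector form. -/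
lemma vec_corr (i₀ j₀ : κ) (h : i₀ ≠ j₀) (F G : (κ → ZMod 2) → κ) :
    av (fun u : κ → ZMod 2 => av (fun v : κ → ZMod 2 => ch (u (F v)) * ch (v (G u)))) ≤
      41 / 96 := by
  set C : (κ → ZMod 2) → (κ → ZMod 2) → ℝ := fun u v => ch (u (F v)) * ch (v (G u)) with hC
  set a : (κ → ZMod 2) → (κ → ZMod 2) → ℝ :=
    fun u v => (ch (u (F v)) - ch (u (F (v + 1)))) / 2 with ha
  set b : (κ → ZMod 2) → (κ → ZMod 2) → ℝ :=
    fun u v => (ch (v (G u)) - ch (v (G (u + 1)))) / 2 with hb
  set e := lab i₀ j₀ F with he
  set e' := lab i₀ j₀ G with he'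
  -- symmetrisation
  have hsym : av (fun u => av (fun v => C u v)) = av (fun u => av (fun v => a u v * b u v)) := by
    have h1 : av (fun u => av (fun v => C (u + 1) v)) = av (fun u => av (fun v => C u v)) :=
      av_translate 1 (fun u => av (fun v => C u v))
    have h2 : av (fun u => av (fun v => C u (v + 1))) = av (fun u => av (fun v => C u v)) := by
      congr 1
      funext u
      exact av_translate 1 (fun v => C u v)
    have h3 : av (fun u => av (fun v => C (u + 1) (v + 1))) =
        av (fun u => av (fun v => C u v)) := by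
      rw [← h1]
      congr 1
      funext u
      exact av_translate 1 (fun v => C (u + 1) v)
    have h4 : ∀ u v, 4 * (a u v * b u v) =
        (C u v + C (u + 1) v) + (C u (v + 1) + C (u + 1) (v + 1)) := by
      intro u v
      simp only [ha, hb, hC, Pi.add_apply, Pi.one_apply, ch_flip]
      ring
    have h5 : 4 * av (fun u => av (fun v => a u v * b u v)) =
        (av (fun u => av (fun v => C u v)) + av (fun u => av (fun v => C (u + 1) v))) +
        (av (fun u => av (fun v => C u (v + 1))) +
          av (fun u => av (fun v => C (u + 1) (v + 1)))) := by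
      rw [← av_add, ← av_add, ← av_add, ← av_mul_left]
      congr 1
      funext u
      rw [← av_add, ← av_add, ← av_add, ← av_mul_left]
      congr 1
      funext v
      exact h4 u v
    rw [h1, h2, h3] at h5
    linarith
  have hab : ∀ u v, a u v * b u v ≤
      (1 / 4) * ((1 - (ch (dt (e v) u) + ch (dt (e' u) v))) +
        ch (dt (e v) u) * ch (dt (e' u) v)) := by
    intro u v
    have h1 : |a u v| ≤ (1 - ch (dt (e v) u)) / 2 := half_diff i₀ j₀ F u v
    have h2 : |b u v| ≤ (1 - ch (dt (e' u) v)) / 2 := half_diff i₀ j₀ G v u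
    calc a u v * b u v ≤ |a u v * b u v| := le_abs_self _
      _ = |a u v| * |b u v| := abs_mul _ _
      _ ≤ (1 - ch (dt (e v) u)) / 2 * ((1 - ch (dt (e' u) v)) / 2) :=
          mul_le_mul h1 h2 (abs_nonneg _) (le_trans (abs_nonneg _) h1)
      _ = _ := by ring
  have hX : av (fun u => av (fun v => ch (dt (e v) u))) = 0 := by
    rw [av_comm]
    have : ∀ v, av (fun u : κ → ZMod 2 => ch (dt (e v) u)) = 0 :=
      fun v => av_ch _ (ne_zero_of_wt (wt_lab i₀ j₀ h F v))
    simp only [this]
    exact av_zero
  have hY : av (fun u => av (fun v => ch (dt (e' u) v))) = 0 := by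
    have : ∀ u, av (fun v : κ → ZMod 2 => ch (dt (e' u) v)) = 0 :=
      fun u => av_ch _ (ne_zero_of_wt (wt_lab i₀ j₀ h G u))
    simp only [this]
    exact av_zero
  have hXY := edge_game e e' (wt_lab i₀ j₀ h F) (wt_lab i₀ j₀ h G)
  have hfin : av (fun u => av (fun v => (1 / 4) * ((1 - (ch (dt (e v) u) + ch (dt (e' u) v))) +
      ch (dt (e v) u) * ch (dt (e' u) v)))) =
      (1 / 4) * ((1 - (av (fun u => av (fun v => ch (dt (e v) u))) +
        av (fun u => av (fun v => ch (dt (e' u) v))))) +
        av (fun u => av (fun v => ch (dt (e v) u) * ch (dt (e' u) v)))) := by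
    have : (fun u => av (fun v => (1 / 4) * ((1 - (ch (dt (e v) u) + ch (dt (e' u) v))) +
        ch (dt (e v) u) * ch (dt (e' u) v)))) =
        fun u => (1 / 4) * ((1 - (av (fun v => ch (dt (e v) u)) +
          av (fun v => ch (dt (e' u) v)))) +
          av (fun v => ch (dt (e v) u) * ch (dt (e' u) v))) := by
      funext u
      rw [av_mul_left, av_add, av_sub, av_const, av_add]
    rw [this, av_mul_left, av_add, av_sub, av_const, av_add]
  rw [hsym]
  calc _ ≤ av (fun u => av (fun v => (1 / 4) * ((1 - (ch (dt (e v) u) + ch (dt (e' u) v))) +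
      ch (dt (e v) u) * ch (dt (e' u) v)))) := av_le fun u => av_le fun v => hab u v
    _ = _ := hfin
    _ ≤ 41 / 96 := by
        rw [hX, hY]
        linarith

/-- Vectors and stacks. -/
def toVec : (κ → Bool) ≃ (κ → ZMod 2) where
  toFun x := fun i => if x i = true then 0 else 1
  invFun v := fun i => decide (v i = 0)
  left_inv x := by
    funext i
    cases h : x i <;> simp [h]
  right_inv v := by
    funext i
    rcases zmod2_cases (v i) with h | h
    · simp [h]
    · simp [h]

lemma av_equiv {X Y : Type*} [Fintype X] [Fintype Y] (E : X ≃ Y) (F : Y → ℝ) :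
    av (fun x => F (E x)) = av F := by
  simp only [av]
  rw [Equiv.sum_comp E F, Fintype.card_congr E]

lemma ch_toVec (x : κ → Bool) (i : κ) : ch (toVec x i) = sg (x i) := by
  cases h : x i
  · have : toVec x i = 1 := by simp [toVec, h]
    rw [this, ch_one, sg]
    simp
  · have : toVec x i = 0 := by simp [toVec, h]
    rw [this, ch_zero, sg]
    simp

/-- Two players with stacks of the same height: the correlation is at most `41/96`. -/
theorem pair_corr (f g : (κ → Bool) → κ) :
    av (fun x : κ → Bool => av (fun y : κ → Bool => sg (x (f y)) * sg (y (g x)))) ≤ 41 / 96 := by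
  by_cases hne : ∃ i j : κ, i ≠ j
  · obtain ⟨i₀, j₀, h⟩ := hne
    have h1 := vec_corr i₀ j₀ h (fun v => f (toVec.symm v)) (fun u => g (toVec.symm u))
    rw [← av_equiv toVec] at h1
    have e1 : ∀ x : κ → Bool, av (fun v : κ → ZMod 2 =>
        ch (toVec x (f (toVec.symm v))) * ch (v (g (toVec.symm (toVec x))))) =
        av (fun y : κ → Bool => sg (x (f y)) * sg (y (g x))) := by
      intro x
      rw [← av_equiv toVec]
      congr 1
      funext y
      rw [Equiv.symm_apply_apply, Equiv.symm_apply_apply, ch_toVec, ch_toVec]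
    simp only [e1] at h1
    exact h1
  · push Not at hne
    set b : κ := f (fun _ => true) with hb
    have h0 : av (fun y : κ → Bool => sg (y b)) = 0 := by
      have hinv : Function.Involutive (fun (y : κ → Bool) (i : κ) => !(y i)) := by
        intro y
        funext i
        simp
      have h1 := av_comp_invol _ hinv (fun y : κ → Bool => sg (y b))
      simp only [sg_not] at h1
      have h2 : av (fun y : κ → Bool => - sg (y b)) = - av (fun y : κ → Bool => sg (y b)) := by
        have : (fun y : κ → Bool => - sg (y b)) = fun y => (-1) * sg (y b) := by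
          funext y
          ring
        rw [this, av_mul_left]
        ring
      rw [h2] at h1
      linarith
    have e1 : ∀ x : κ → Bool, av (fun y : κ → Bool => sg (x (f y)) * sg (y (g x))) = 0 := by
      intro x
      have : (fun y : κ → Bool => sg (x (f y)) * sg (y (g x))) =
          fun y => sg (x b) * sg (y b) := by
        funext y
        rw [hne (f y) b, hne (g x) b]
      rw [this, av_mul_left, h0, mul_zero]
    simp only [e1]
    rw [av_zero]
    norm_num

end Vec

end Pool.Agent.TP
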